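import Pool.Agent.Helper11.Iso.Defs

/-!
# ISO-A: the pairing of a power of the generic determinant with tensors whose contractions vanish
-/

set_option autoImplicit false
set_option linter.unusedSectionVars false
set_option linter.style.haveILetI false

open Finset Matrix

universe u

namespace Pool.Agent.Helper11.Iso

open Pool.Agent.Helper10.GIT Pool.Agent.Helper11.GIT

namespace Fun

/-! ### elimination of free slots -/

section elim

variable {R : Type*} [CommRing R] {N : Type} [Fintype N] [DecidableEq N]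

theorem step {A : Type} [Fintype A] [DecidableEq A] (β : Option A ≃ Option A) :
    ∃ c : R, ∀ f g : A → N,
      ∑ x : N, ∏ a : Option A, (if (a.elim x f : N) = ((β a).elim x g : N) then (1 : R) else 0) =
        c * ∏ a : A, (if f a = g (Equiv.removeNone β a) then 1 else 0) := by
  rcases hb : β none with _ | b
  · refine ⟨(Fintype.card N : R), fun f g => ?_⟩
    have h1 : ∀ a, β (some a) = some (Equiv.removeNone β a) := by
      intro a
      rw [Equiv.removeNone_some]
      rcases h : β (some a) with _ | b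
      · rw [← hb] at h
        exact absurd (β.injective h) (by simp)
      · exact ⟨b, rfl⟩
    have h2 : ∀ x : N, ∏ a : Option A, (if (a.elim x f : N) = ((β a).elim x g : N)
        then (1 : R) else 0) = ∏ a : A, (if f a = g (Equiv.removeNone β a) then 1 else 0) := by
      intro x
      rw [Fintype.prod_option, hb]
      simp only [Option.elim_none, if_true, one_mul, h1, Option.elim_some]
    rw [sum_congr rfl fun x _ => h2 x, sum_const, card_univ, nsmul_eq_mul]
  · refine ⟨1, fun f g => ?_⟩
    obtain ⟨a1, ha1⟩ : ∃ a1, β.symm none = some a1 := by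
      rcases h : β.symm none with _ | a
      · rw [Equiv.symm_apply_eq, hb] at h
        exact absurd h (by simp)
      · exact ⟨a, rfl⟩
    have ha1' : β (some a1) = none := by rw [← ha1, Equiv.apply_symm_apply]
    have hr1 : Equiv.removeNone β a1 = b := by
      have := Equiv.removeNone_none β ha1'
      rw [hb] at this
      exact Option.some_injective _ this
    have h1 : ∀ a, a ≠ a1 → β (some a) = some (Equiv.removeNone β a) := by
      intro a ha
      rw [Equiv.removeNone_some]
      rcases h : β (some a) with _ | b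
      · rw [← ha1'] at h
        exact absurd (Option.some_injective _ (β.injective h)) ha
      · exact ⟨b, rfl⟩
    have h2 : ∀ x : N, ∏ a : Option A, (if (a.elim x f : N) = ((β a).elim x g : N)
        then (1 : R) else 0) = (if x = g b then 1 else 0) * ((if f a1 = x then 1 else 0) *
          ∏ a ∈ univ.erase a1, (if f a = g (Equiv.removeNone β a) then 1 else 0)) := by
      intro x
      rw [Fintype.prod_option, hb, ← mul_prod_erase univ _ (mem_univ a1), ha1']
      simp only [Option.elim_none, Option.elim_some]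
      congr 2
      refine prod_congr rfl fun a ha => ?_
      rw [h1 a (ne_of_mem_erase ha), Option.elim_some]
      exact if_congr Iff.rfl rfl rfl
    rw [sum_congr rfl fun x _ => h2 x, one_mul, ← mul_prod_erase univ _ (mem_univ a1), hr1]
    simp only [← mul_assoc]
    rw [← sum_mul]
    congr 1
    rw [sum_eq_single (g b)]
    · rw [if_pos rfl, one_mul]
    · intro x _ hx
      rw [if_neg hx, zero_mul]
    · intro h; exact absurd (mem_univ _) h

/-- reordering -/
def oeq (E I : Type) : Option (E ⊕ I) ≃ E ⊕ Option I where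
  toFun o := match o with
    | none => Sum.inr none
    | some (Sum.inl r) => Sum.inl r
    | some (Sum.inr i) => Sum.inr (some i)
  invFun o := match o with
    | Sum.inr none => none
    | Sum.inl r => some (Sum.inl r)
    | Sum.inr (some i) => some (Sum.inr i)
  left_inv o := by rcases o with _ | _ | _ <;> rfl
  right_inv o := by rcases o with _ | _ | _ <;> rfl

/-- the statement of the elimination lemma -/
def Elim (R : Type*) [CommRing R] (N : Type) [Fintype N] [DecidableEq N] (E : Type) [Fintype E]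
    (I : Type) : Prop :=
  ∀ [Fintype I] [DecidableEq I] (β : E ⊕ I ≃ E ⊕ I), ∃ (c : R) (ρ : Equiv.Perm E), ∀ F G : E → N,
      ∑ x : I → N, ∏ a : E ⊕ I,
        (if Sum.elim F x a = Sum.elim G x (β a) then (1 : R) else 0) =
      c * ∏ r : E, (if F r = G (ρ r) then 1 else 0)

/-- the elimination lemma -/
theorem elim {E : Type} [Fintype E] [DecidableEq E] (I : Type) [Finite I] : Elim R N E I := by
  induction I using Finite.induction_empty_option with
  | of_equiv e ih =>
    rename_i α α'
    intro _ _ β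
    letI : Fintype α := Fintype.ofEquiv α' e.symm
    letI : DecidableEq α := e.injective.decidableEq
    let s : E ⊕ α ≃ E ⊕ α' := Equiv.sumCongr (Equiv.refl E) e
    obtain ⟨c, ρ, h⟩ := ih ((s.trans β).trans s.symm)
    refine ⟨c, ρ, fun F G => ?_⟩
    rw [← h F G]
    refine Fintype.sum_equiv (Equiv.arrowCongr e.symm (Equiv.refl N)) _ _ fun x => ?_
    refine Fintype.prod_equiv s.symm _ _ fun a => ?_
    have h1 : ∀ (F : E → N) (b : E ⊕ α'), Sum.elim F (Equiv.arrowCongr e.symm (Equiv.refl N) x)
        (s.symm b) = Sum.elim F x b := by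
      intro F b
      rcases b with r | i
      · rfl
      · simp [s]
    rw [h1]
    simp only [Equiv.trans_apply, Equiv.apply_symm_apply, h1]
  | h_empty =>
    intro _ _ β
    let s : E ⊕ PEmpty ≃ E := Equiv.sumEmpty E PEmpty
    refine ⟨1, (s.symm.trans β).trans s, fun F G => ?_⟩
    rw [one_mul, Fintype.sum_unique]
    refine Fintype.prod_equiv s _ _ fun a => ?_
    have h1 : ∀ (F : E → N) (b : E ⊕ PEmpty), Sum.elim F (default : PEmpty → N) b = F (s b) := by
      intro F b
      rcases b with r | i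
      · rfl
      · exact i.elim
    rw [h1, h1]
    simp
  | h_option ih =>
    rename_i α _
    intro _ _ β
    letI : DecidableEq α := (Option.some_injective α).decidableEq
    let o := oeq E α
    let δ : Option (E ⊕ α) ≃ Option (E ⊕ α) := (o.trans β).trans o.symm
    obtain ⟨c1, h1⟩ := step (R := R) (N := N) δ
    obtain ⟨c2, ρ, h2⟩ := ih (Equiv.removeNone δ)
    refine ⟨c1 * c2, ρ, fun F G => ?_⟩
    have h3 : ∑ x : Option α → N, ∏ a : E ⊕ Option α,
        (if Sum.elim F x a = Sum.elim G x (β a) then (1 : R) else 0) =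
        ∑ x' : α → N, ∑ x0 : N, ∏ a : Option (E ⊕ α),
          (if (a.elim x0 (Sum.elim F x') : N) = ((δ a).elim x0 (Sum.elim G x') : N)
            then (1 : R) else 0) := by
      rw [sum_comm, ← Fintype.sum_prod_type']
      refine Fintype.sum_equiv Equiv.piOptionEquivProd _ _ fun x => ?_
      refine Fintype.prod_equiv o.symm _ _ fun a => ?_
      have h4 : ∀ (F : E → N) (b : E ⊕ Option α), Sum.elim F x b =
          ((o.symm b).elim (x none) (Sum.elim F (fun i => x (some i))) : N) := by
        intro F b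
        rcases b with r | _ | i <;> rfl
      rw [h4, h4]
      simp only [δ, Equiv.trans_apply, Equiv.apply_symm_apply]
      rfl
    rw [h3, sum_congr rfl fun x' _ => h1 (Sum.elim F x') (Sum.elim G x'), ← mul_sum, h2, mul_assoc]

end elim

section eps

variable {R : Type*} [CommRing R] {N : ℕ}

lemma eps_mul_eps (f g : Fin N → Fin N) :
    (eps f * eps g : R) = ∑ θ : Equiv.Perm (Fin N), ((Equiv.Perm.sign θ : ℤ) : R) *
      ∏ i, (if f (θ i) = g i then 1 else 0) := by
  have h1 : (eps g : R) = (Matrix.of fun i j => if g i = j then (1 : R) else 0)ᵀ.det := by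
    rw [det_transpose]; rfl
  rw [h1, eps, ← det_mul, det_apply']
  refine sum_congr rfl fun θ _ => ?_
  congr 1
  refine prod_congr rfl fun i _ => ?_
  rw [Matrix.mul_apply, sum_eq_single (f (θ i))]
  · rw [Matrix.of_apply, if_pos rfl, one_mul, Matrix.transpose_apply, Matrix.of_apply]
    simp only [eq_comm]
  · intro j _ hj
    rw [Matrix.of_apply, if_neg hj.symm, zero_mul]
  · intro h; exact absurd (mem_univ _) h

lemma det_eq_sum_eps {S : Type*} [CommRing S] [Algebra R S] (M : Matrix (Fin N) (Fin N) S) :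
    M.det = ∑ f : Fin N → Fin N, (eps f : R) • ∏ i, M i (f i) := by
  have h1 : ∀ f : Fin N → Fin N, (eps f : R) • ∏ i, M i (f i) =
      ∑ π : Equiv.Perm (Fin N), ((Equiv.Perm.sign π : ℤ) : S) *
        ∏ i, (if π i = f i then M i (f i) else 0) := by
    intro f
    rw [eps_eq, Algebra.smul_def, map_sum, sum_mul]
    refine sum_congr rfl fun π _ => ?_
    rw [map_mul, map_prod, map_intCast, mul_assoc, ← prod_mul_distrib]
    congr 1
    refine prod_congr rfl fun i _ => ?_
    by_cases h : π i = f i
    · rw [if_pos h, if_pos h, map_one, one_mul]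
    · rw [if_neg h, if_neg h, map_zero, zero_mul]
  rw [sum_congr rfl fun f _ => h1 f, sum_comm, ← det_transpose, det_apply']
  refine sum_congr rfl fun π _ => ?_
  rw [← mul_sum]
  congr 1
  have h2 := Finset.prod_univ_sum (fun _ : Fin N => (univ : Finset (Fin N)))
    (fun i j => if π i = j then M i j else 0)
  rw [Fintype.piFinset_univ] at h2
  rw [← h2]
  refine prod_congr rfl fun i _ => ?_
  rw [sum_ite_eq, if_pos (mem_univ _), Matrix.transpose_apply]

lemma mul_adjugate_eq {S : Type*} [CommRing S] [Algebra R S] (M : Matrix (Fin N) (Fin N) S)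
    (w v a b : Fin N) :
    M w v * M.adjugate b a = ∑ f : Fin N → Fin N, ((eps f : R) * (if f a = b then 1 else 0)) •
      ∏ i, M (if i = a then w else i) (if i = a then v else f i) := by
  rw [adjugate_apply, det_eq_sum_eps (R := R), mul_sum]
  refine sum_congr rfl fun f _ => ?_
  rw [mul_smul_comm, mul_smul]
  congr 1
  rw [← mul_prod_erase univ _ (mem_univ a), ← mul_prod_erase univ (fun i =>
    M (if i = a then w else i) (if i = a then v else f i)) (mem_univ a), updateRow_self,
    if_pos rfl, if_pos rfl]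
  have h1 : ∏ i ∈ univ.erase a, M.updateRow a (Pi.single b 1) i (f i) =
      ∏ i ∈ univ.erase a, M (if i = a then w else i) (if i = a then v else f i) := by
    refine prod_congr rfl fun i hi => ?_
    rw [updateRow_ne (ne_of_mem_erase hi), if_neg (ne_of_mem_erase hi), if_neg (ne_of_mem_erase hi)]
  rw [h1]
  by_cases h : f a = b
  · rw [if_pos h, one_smul, h, Pi.single_eq_same, one_mul]
  · rw [if_neg h, zero_smul, Pi.single_eq_of_ne h, zero_mul, mul_zero]

end eps

section factor

open MvPolynomial

variable {R : Type*} [CommRing R] {m : ℕ} {S : Fin m → Type} [∀ t, Fintype (S t)]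
  [∀ t, DecidableEq (S t)]

/-- the exponent glued from its parts -/
noncomputable def comb (α : ∀ t, S t →₀ ℕ) : (Σ t, S t) →₀ ℕ :=
  Finsupp.equivFunOnFinite.symm fun x => α x.1 x.2

lemma comb_apply (α : ∀ t, S t →₀ ℕ) (t : Fin m) (s : S t) : comb α ⟨t, s⟩ = α t s := rfl

lemma sum_mapDomain (α : ∀ t, S t →₀ ℕ) :
    ∑ t, Finsupp.mapDomain (Sigma.mk t) (α t) = comb α := by
  ext ⟨t, s⟩
  rw [Finsupp.finsetSum_apply, comb_apply, sum_eq_single t]
  · exact Finsupp.mapDomain_apply sigma_mk_injective _ _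
  · intro t' _ ht
    refine Finsupp.mapDomain_of_notMem_range _ _ ?_
    rintro ⟨s', hs'⟩
    exact ht (congrArg Sigma.fst hs')
  · intro h; exact absurd (mem_univ _) h

lemma prod_rename_monomial (α : ∀ t, S t →₀ ℕ) (a : Fin m → R) :
    ∏ t, rename (Sigma.mk t) (monomial (α t) (a t)) = monomial (comb α) (∏ t, a t) := by
  simp only [rename_monomial]
  rw [← sum_mapDomain]
  have h : ∀ s : Finset (Fin m), ∏ t ∈ s, monomial (Finsupp.mapDomain (Sigma.mk t) (α t)) (a t) =
      monomial (∑ t ∈ s, Finsupp.mapDomain (Sigma.mk t) (α t)) (∏ t ∈ s, a t) := by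
    intro s
    induction s using Finset.induction_on with
    | empty => simp
    | insert t s ht ih =>
      rw [prod_insert ht, ih, sum_insert ht, prod_insert ht, monomial_mul]
  exact h univ

lemma mfact_comb (α : ∀ t, S t →₀ ℕ) : mfact (comb α) = ∏ t, mfact (α t) := by
  unfold mfact
  rw [Fintype.prod_sigma]
  rfl

lemma comb_inj (α β : ∀ t, S t →₀ ℕ) : comb α = comb β ↔ ∀ t, α t = β t := by
  constructor
  · intro h t
    ext s
    rw [← comb_apply α, ← comb_apply β, h]
  · intro h
    rw [funext h]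

lemma fis_comb (α β : ∀ t, S t →₀ ℕ) (a b : Fin m → R) :
    fis (∏ t, rename (Sigma.mk t) (monomial (α t) (a t)))
      (∏ t, rename (Sigma.mk t) (monomial (β t) (b t))) =
      ∏ t, fis (monomial (α t) (a t)) (monomial (β t) (b t)) := by
  rw [prod_rename_monomial, prod_rename_monomial, fis_monomial_monomial]
  simp only [fis_monomial_monomial]
  by_cases h : ∀ t, α t = β t
  · rw [if_pos ((comb_inj α β).mpr h), mfact_comb]
    push_cast
    rw [← prod_mul_distrib, ← prod_mul_distrib]
    exact prod_congr rfl fun t _ => by rw [if_pos (h t)]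
  · rw [if_neg (fun h' => h ((comb_inj α β).mp h'))]
    push Not at h
    obtain ⟨t, ht⟩ := h
    rw [prod_eq_zero (mem_univ t) (if_neg ht)]

/-- the pairing factors over disjoint sets of variables -/
lemma fis_factor (p q : ∀ t, MvPolynomial (S t) R) :
    fis (∏ t, rename (Sigma.mk t) (p t)) (∏ t, rename (Sigma.mk t) (q t)) =
      ∏ t, fis (p t) (q t) := by
  have h1 : ∀ p : ∀ t, MvPolynomial (S t) R, ∏ t, rename (Sigma.mk t) (p t) =
      ∑ A ∈ Fintype.piFinset (fun t => (p t).support),
        ∏ t, rename (Sigma.mk t) (monomial (A t) (coeff (A t) (p t))) := by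
    intro p
    have h := Finset.prod_univ_sum (fun t => (p t).support)
      (fun t α => rename (Sigma.mk t) (monomial α (coeff α (p t))))
    rw [← h]
    refine prod_congr rfl fun t _ => ?_
    rw [← map_sum, support_sum_monomial_coeff]
  have h2 : ∀ t, fis (p t) (q t) = ∑ α ∈ (p t).support, ∑ β ∈ (q t).support,
      fis (monomial α (coeff α (p t))) (monomial β (coeff β (q t))) := by
    intro t
    conv_lhs => rw [← (p t).support_sum_monomial_coeff, ← (q t).support_sum_monomial_coeff]
    simp only [map_sum, LinearMap.sum_apply]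
    rw [sum_comm]
  rw [h1 p, h1 q]
  simp only [map_sum, LinearMap.sum_apply, fis_comb]
  rw [sum_comm, prod_congr rfl fun t _ => h2 t, Finset.prod_univ_sum]
  refine sum_congr rfl fun A _ => ?_
  rw [Finset.prod_univ_sum]

end factor

section claim

open MvPolynomial

variable {R : Type*} [CommRing R] {N k : ℕ}

/-- the generic matrix -/
noncomputable def Xm (N : ℕ) (R : Type*) [CommRing R] :
    Matrix (Fin N) (Fin N) (MvPolynomial (Fin N × Fin N) R) :=
  Matrix.of fun a b => X (a, b)

lemma det_pow_eq (k : ℕ) : (Xm N R).det ^ k = ∑ G : Fin k → Fin N → Fin N,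
    (∏ κ, (eps (G κ) : R)) • ∏ p : Fin k × Fin N, X (p.2, G p.1 p.2) := by
  have h1 : (Xm N R).det ^ k = ∏ _κ : Fin k, (Xm N R).det := by
    rw [prod_const, card_univ, Fintype.card_fin]
  rw [h1, prod_congr rfl fun _ _ => det_eq_sum_eps (R := R) (Xm N R), prod_univ_sum,
    Fintype.piFinset_univ]
  refine sum_congr rfl fun G _ => ?_
  rw [prod_smul]
  congr 1
  rw [Fintype.prod_prod_type]
  rfl

/-- the rows -/
def row (w w' : Fin k → Fin N) (p : Fin k × Fin N) : Fin N := if p.2 = w' p.1 then w p.1 else p.2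

/-- the columns -/
def col (w' V : Fin k → Fin N) (x : Fin k × Fin N → Fin N) (p : Fin k × Fin N) : Fin N :=
  if p.2 = w' p.1 then V p.1 else x p

lemma prod_mul_adjugate (w w' V U : Fin k → Fin N) :
    ∏ r, (Xm N R (w r) (V r) * (Xm N R).adjugate (U r) (w' r)) =
      ∑ x : Fin k × Fin N → Fin N, (∏ r, ((eps (fun i => x (r, i)) : R) *
        (if x (r, w' r) = U r then 1 else 0))) •
          ∏ p : Fin k × Fin N, X (row w w' p, col w' V x p) := by
  rw [prod_congr rfl fun r _ => mul_adjugate_eq (R := R) (Xm N R) (w r) (V r) (w' r) (U r),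
    prod_univ_sum, Fintype.piFinset_univ]
  refine (Fintype.sum_equiv (Equiv.curry (Fin k) (Fin N) (Fin N)) _ _ fun x => ?_).symm
  rw [prod_smul]
  congr 1
  rw [Fintype.prod_prod_type]
  rfl

/-- exchange of the slots -/
def sw (w' : Fin k → Fin N) : Equiv.Perm (Fin k ⊕ (Fin k × Fin N)) :=
  Function.Involutive.toPerm (fun s => match s with
    | Sum.inl r => Sum.inr (r, w' r)
    | Sum.inr p => if p.2 = w' p.1 then Sum.inl p.1 else Sum.inr p) (by
    rintro (r | ⟨r, i⟩)
    · simp
    · by_cases h : i = w' r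
      · simp [h]
      · simp [h])

lemma elim_sw_inl (w' V : Fin k → Fin N) (x : Fin k × Fin N → Fin N) (r : Fin k) :
    Sum.elim V x (sw w' (Sum.inl r)) = x (r, w' r) := rfl

lemma elim_sw_inr (w' V : Fin k → Fin N) (x : Fin k × Fin N → Fin N) (p : Fin k × Fin N) :
    Sum.elim V x (sw w' (Sum.inr p)) = col w' V x p := by
  change Sum.elim V x (if p.2 = w' p.1 then Sum.inl p.1 else Sum.inr p) = _
  unfold col
  split_ifs <;> rfl

lemma fis_det_pow (w w' V : Fin k → Fin N) (x : Fin k × Fin N → Fin N) :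
    fis ((Xm N R).det ^ k) (∏ p : Fin k × Fin N, X (row w w' p, col w' V x p)) =
      ∑ τ : Fin k × Fin N ≃ Fin k × Fin N, (∏ p : Fin k × Fin N,
        (if p.2 = row w w' (τ p) then (1 : R) else 0)) *
        ∏ κ, eps (fun i => col w' V x (τ (κ, i))) := by
  rw [det_pow_eq, map_sum, LinearMap.sum_apply]
  simp only [map_smul, LinearMap.smul_apply, smul_eq_mul, fis_prod_X, mul_sum]
  rw [sum_comm]
  refine sum_congr rfl fun τ _ => ?_
  rw [sum_eq_single (fun κ i => col w' V x (τ (κ, i)))]
  · rw [mul_comm]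
    congr 1
    refine prod_congr rfl fun p _ => ?_
    by_cases h : p.2 = row w w' (τ p)
    · rw [if_pos h, if_pos]
      exact Prod.ext h rfl
    · rw [if_neg h, if_neg]
      exact fun h' => h (congrArg Prod.fst h')
  · intro G _ hG
    obtain ⟨κ, hκ⟩ := Function.ne_iff.mp hG
    obtain ⟨i, hi⟩ := Function.ne_iff.mp hκ
    rw [prod_eq_zero (mem_univ (κ, i)), mul_zero]
    exact if_neg fun h' => hi (congrArg Prod.snd h')
  · intro h; exact absurd (mem_univ _) h

/-- the pairing with products of entries of the generic matrix and its adjugate -/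
theorem claim (w w' : Fin k → Fin N) :
    ∃ (c : ((Fin k × Fin N ≃ Fin k × Fin N) × (Fin k → Equiv.Perm (Fin N))) → R)
      (ρ : ((Fin k × Fin N ≃ Fin k × Fin N) × (Fin k → Equiv.Perm (Fin N))) →
        Equiv.Perm (Fin k)), ∀ V U : Fin k → Fin N,
      fis ((Xm N R).det ^ k) (∏ r, (Xm N R (w r) (V r) * (Xm N R).adjugate (U r) (w' r))) =
        ∑ j, c j * ∏ r, (if U r = V (ρ j r) then 1 else 0) := by
  have h0 := fun j : (Fin k × Fin N ≃ Fin k × Fin N) × (Fin k → Equiv.Perm (Fin N)) =>
    elim (R := R) (N := Fin N) (E := Fin k) (Fin k × Fin N)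
      ((Equiv.sumCongr (Equiv.refl (Fin k)) ((Equiv.prodShear (Equiv.refl _) j.2).trans j.1)).trans
        (sw w'))
  choose c0 ρ h0 using h0
  refine ⟨fun j => (∏ p : Fin k × Fin N, (if p.2 = row w w' (j.1 p) then (1 : R) else 0)) *
    (∏ r, ((Equiv.Perm.sign (j.2 r) : ℤ) : R)) * c0 j, ρ, fun V U => ?_⟩
  have h1 : ∀ j : (Fin k × Fin N ≃ Fin k × Fin N) × (Fin k → Equiv.Perm (Fin N)),
      ∑ x : Fin k × Fin N → Fin N, ∏ r, ((if x (r, w' r) = U r then (1 : R) else 0) *
        ∏ i, (if col w' V x (j.1 (r, j.2 r i)) = x (r, i) then (1 : R) else 0)) =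
      c0 j * ∏ r, (if U r = V (ρ j r) then 1 else 0) := by
    intro j
    rw [← h0 j U V]
    refine sum_congr rfl fun x _ => ?_
    rw [Fintype.prod_sum_type, prod_mul_distrib]
    congr 1
    · refine prod_congr rfl fun r _ => ?_
      simp only [Equiv.trans_apply, Equiv.sumCongr_apply, Sum.map_inl, Equiv.refl_apply,
        elim_sw_inl, Sum.elim_inl, eq_comm]
    · rw [Fintype.prod_prod_type]
      refine prod_congr rfl fun r _ => prod_congr rfl fun i _ => ?_
      simp only [Equiv.trans_apply, Equiv.sumCongr_apply, Sum.map_inr, elim_sw_inr, Sum.elim_inr,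
        Equiv.prodShear_apply, Equiv.refl_apply]
      simp only [eq_comm]
  have h5 : ∑ j, ((∏ p : Fin k × Fin N, (if p.2 = row w w' (j.1 p) then (1 : R) else 0)) *
      (∏ r, ((Equiv.Perm.sign (j.2 r) : ℤ) : R)) * c0 j) *
        ∏ r, (if U r = V (ρ j r) then 1 else 0) =
      ∑ τ : Fin k × Fin N ≃ Fin k × Fin N, ∑ Θ : Fin k → Equiv.Perm (Fin N),
        ∑ x : Fin k × Fin N → Fin N,
          (∏ p : Fin k × Fin N, (if p.2 = row w w' (τ p) then (1 : R) else 0)) *
          ∏ r, (((Equiv.Perm.sign (Θ r) : ℤ) : R) * ((if x (r, w' r) = U r then (1 : R) else 0) *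
            ∏ i, (if col w' V x (τ (r, Θ r i)) = x (r, i) then (1 : R) else 0))) := by
    rw [Fintype.sum_prod_type]
    refine sum_congr rfl fun τ _ => sum_congr rfl fun Θ _ => ?_
    rw [mul_assoc, ← h1 (τ, Θ), mul_sum]
    refine sum_congr rfl fun x _ => ?_
    rw [mul_assoc, prod_mul_distrib (f := fun r => ((Equiv.Perm.sign (Θ r) : ℤ) : R))]
  rw [h5, prod_mul_adjugate, map_sum]
  simp only [map_smul, smul_eq_mul, fis_det_pow, mul_sum]
  rw [sum_comm]
  refine sum_congr rfl fun τ _ => ?_
  rw [sum_comm (s := (univ : Finset (Fin k → Equiv.Perm (Fin N))))]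
  refine sum_congr rfl fun x _ => ?_
  rw [← mul_sum]
  have h2 := Finset.prod_univ_sum (fun _ : Fin k => (univ : Finset (Equiv.Perm (Fin N))))
    (fun r θ => ((Equiv.Perm.sign θ : ℤ) : R) * ((if x (r, w' r) = U r then (1 : R) else 0) *
        ∏ i, (if col w' V x (τ (r, θ i)) = x (r, i) then (1 : R) else 0)))
  rw [Fintype.piFinset_univ] at h2
  rw [← h2]
  have h4 : ∀ r, ∑ θ : Equiv.Perm (Fin N), (((Equiv.Perm.sign θ : ℤ) : R) *
      ((if x (r, w' r) = U r then (1 : R) else 0) *
        ∏ i, (if col w' V x (τ (r, θ i)) = x (r, i) then (1 : R) else 0))) =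
      (if x (r, w' r) = U r then (1 : R) else 0) *
        (eps (fun i => col w' V x (τ (r, i))) * eps (fun i => x (r, i))) := by
    intro r
    rw [eps_mul_eps, mul_sum]
    refine sum_congr rfl fun θ _ => ?_
    ring
  rw [prod_congr rfl fun r _ => h4 r]
  simp only [prod_mul_distrib]
  ring

end claim


end Fun

section main

open MvPolynomial

variable {m : ℕ} {n : Fin m → ℕ}

namespace Fun

variable (n) in
/-- the embedding of the polynomials in the entries of one matrix -/
noncomputable abbrev rn (R : Type*) [CommRing R] (t : Fin m) :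
    MvPolynomial (Fin (n t) × Fin (n t)) R →ₐ[R] MvPolynomial (GV n) R :=
  rename (@Sigma.mk (Fin m) (fun t => Fin (n t) × Fin (n t)) t)

lemma gen_eq_map {R : Type*} [CommRing R] (t : Fin m) :
    gen n R t = (rn n R t).toRingHom.mapMatrix (Xm (n t) R) := by
  ext1 a b
  rw [RingHom.mapMatrix_apply, Matrix.map_apply]
  change X _ = rn n R t (X _)
  rw [rename_X]

lemma gdet_pow_eq {R : Type*} [CommRing R] (k : ℕ) :
    gdet n R ^ k = ∏ t, rn n R t ((Xm (n t) R).det ^ k) := by
  unfold gdet genDet
  rw [← prod_pow]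
  refine prod_congr rfl fun t _ => ?_
  rw [pow_one, gen_eq_map, ← RingHom.map_det, map_pow]
  rfl

lemma coord_dcoord_eq {R : Type*} [CommRing R] {k : ℕ} (z y : Fin k → Idx n → R)
    (w w' : Fin k → Idx n) :
    ∏ r, coord (z r) (w r) * dcoord (y r) (w' r) = ∑ V : Fin k → Idx n, ∑ U : Fin k → Idx n,
      ((∏ r, z r (V r)) * ∏ r, y r (U r)) •
        ∏ t, rn n R t (∏ r, (Xm (n t) R (w r t) (V r t) *
          (Xm (n t) R).adjugate (U r t) (w' r t))) := by
  have h1 : ∏ r, coord (z r) (w r) = ∑ V : Fin k → Idx n, (∏ r, z r (V r)) •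
      ∏ r, ∏ t, rn n R t (Xm (n t) R (w r t) (V r t)) := by
    have h2 : ∀ r, coord (z r) (w r) = ∑ V : Idx n, z r V •
        ∏ t, rn n R t (Xm (n t) R (w r t) (V t)) := by
      intro r
      unfold coord
      rw [act_apply]
      refine sum_congr rfl fun V _ => ?_
      rw [smul_eq_C_mul, mul_comm]
      congr 1
      refine prod_congr rfl fun t _ => ?_
      rw [gen_eq_map]
      rfl
    rw [prod_congr rfl fun r _ => h2 r, prod_univ_sum, Fintype.piFinset_univ]
    refine sum_congr rfl fun V _ => ?_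
    rw [prod_smul]
  have h3 : ∏ r, dcoord (y r) (w' r) = ∑ U : Fin k → Idx n, (∏ r, y r (U r)) •
      ∏ r, ∏ t, rn n R t ((Xm (n t) R).adjugate (U r t) (w' r t)) := by
    have h2 : ∀ r, dcoord (y r) (w' r) = ∑ U : Idx n, y r U •
        ∏ t, rn n R t ((Xm (n t) R).adjugate (U t) (w' r t)) := by
      intro r
      unfold dcoord
      rw [act_apply]
      refine sum_congr rfl fun U _ => ?_
      rw [smul_eq_C_mul, mul_comm]
      congr 1
      refine prod_congr rfl fun t _ => ?_
      rw [gen_eq_map, ← RingHom.map_adjugate]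
      rfl
    rw [prod_congr rfl fun r _ => h2 r, prod_univ_sum, Fintype.piFinset_univ]
    refine sum_congr rfl fun V _ => ?_
    rw [prod_smul]
  rw [prod_mul_distrib, h1, h3, sum_mul]
  refine sum_congr rfl fun V _ => ?_
  rw [mul_sum]
  refine sum_congr rfl fun U _ => ?_
  rw [smul_mul_smul_comm]
  congr 1
  rw [← prod_mul_distrib]
  simp only [← prod_mul_distrib, ← map_mul]
  rw [prod_comm]
  simp only [← map_prod]

end Fun

open Fun

/-- PIECE ISO-A -/
theorem fis_coord_dcoord {Ω : Type u} [Field Ω] [CharZero Ω] {P Q : Set (Idx n → Ω)}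
    (h : TraceZero P Q) {k : ℕ} (hk : 0 < k) (z y : Fin k → Idx n → Ω) (w w' : Fin k → Idx n)
    (hz : ∀ r, z r ∈ P) (hy : ∀ r, y r ∈ Q) :
    fis (gdet n Ω ^ k) (∏ r, coord (z r) (w r) * dcoord (y r) (w' r)) = 0 := by
  choose c ρ hc using fun t => claim (R := Ω) (N := n t) (k := k) (fun r => w r t) (fun r => w' r t)
  rw [gdet_pow_eq, coord_dcoord_eq]
  have h1 : ∀ V U : Fin k → Idx n, fis (∏ t, rn n Ω t ((Xm (n t) Ω).det ^ k))
      (((∏ r, z r (V r)) * ∏ r, y r (U r)) • ∏ t, rn n Ω t (∏ r, (Xm (n t) Ω (w r t) (V r t) *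
          (Xm (n t) Ω).adjugate (U r t) (w' r t)))) =
      ∑ J ∈ Fintype.piFinset (fun _ : Fin m => univ), (∏ t, c t (J t)) *
        (((∏ r, z r (V r)) * ∏ r, y r (U r)) *
          ∏ t, ∏ r, (if U r t = V (ρ t (J t) r) t then 1 else 0)) := by
    intro V U
    rw [map_smul, smul_eq_mul, fis_factor, prod_congr rfl fun t _ =>
      hc t (fun r => V r t) (fun r => U r t), prod_univ_sum, mul_sum]
    refine sum_congr rfl fun J _ => ?_
    rw [prod_mul_distrib]
    ring
  have h2 : ∀ J : (∀ t, (Fin k × Fin (n t) ≃ Fin k × Fin (n t)) ×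
      (Fin k → Equiv.Perm (Fin (n t)))),
      ∑ V : Fin k → Idx n, ∑ U : Fin k → Idx n, (∏ t, c t (J t)) *
        (((∏ r, z r (V r)) * ∏ r, y r (U r)) *
          ∏ t, ∏ r, (if U r t = V (ρ t (J t) r) t then 1 else 0)) = 0 := by
    intro J
    have h3 : ∀ V : Fin k → Idx n, ∑ U : Fin k → Idx n, (∏ t, c t (J t)) *
        (((∏ r, z r (V r)) * ∏ r, y r (U r)) *
          ∏ t, ∏ r, (if U r t = V (ρ t (J t) r) t then 1 else 0)) =
        (∏ t, c t (J t)) * ((∏ r, z r (V r)) * ∏ r, y r (fun t => V (ρ t (J t) r) t)) := by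
      intro V
      rw [sum_eq_single (fun r t => V (ρ t (J t) r) t)]
      · simp
      · intro U _ hU
        obtain ⟨r, hr⟩ := Function.ne_iff.mp hU
        obtain ⟨t, ht⟩ := Function.ne_iff.mp hr
        have h5 : ∏ t, ∏ r, (if U r t = V (ρ t (J t) r) t then (1 : Ω) else 0) = 0 :=
          prod_eq_zero (mem_univ t) (prod_eq_zero (mem_univ r) (if_neg ht))
        rw [h5, mul_zero, mul_zero]
      · intro h; exact absurd (mem_univ _) h
    rw [sum_congr rfl fun V _ => h3 V, ← mul_sum, h k hk (fun t => ρ t (J t)) z y hz hy, mul_zero]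
  simp only [map_sum, h1]
  have h4 : ∀ F : (Fin k → Idx n) → (Fin k → Idx n) → (∀ t, (Fin k × Fin (n t) ≃
      Fin k × Fin (n t)) × (Fin k → Equiv.Perm (Fin (n t)))) → Ω,
      (∀ J, ∑ V, ∑ U, F V U J = 0) →
        ∑ V, ∑ U, ∑ J ∈ Fintype.piFinset (fun _ : Fin m => univ), F V U J = 0 := by
    intro F hF
    rw [Fintype.piFinset_univ, sum_congr rfl fun V _ => sum_comm, sum_comm]
    exact sum_eq_zero fun J _ => hF J
  exact h4 _ h2

end main

end Pool.Agent.Helper11.Iso
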