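import Mathlib
import Pool.Agent.Helper11.Iso.Piece

/-!
# ISO-F: numerically trivial classes paired with words: all contractions vanish
-/

set_option autoImplicit false
set_option linter.unusedSectionVars false

universe u v w t

open CategoryTheory Finset

namespace Pool.Agent.Helper11.Iso

open Pool.Agent.Helper10 SmProjVar SPre Pool.Agent.Helper10.GIT

namespace TZ

section form

variable {m : ℕ} {n : Fin m → ℕ} {Ω : Type*} [Field Ω] {M : ℕ}

/-- a multilinear form on families of tensors -/
def form (c : (Fin M → Idx n) → Ω) (z : Fin M → Idx n → Ω) : Ω := ∑ W, c W * ∏ r, z r (W r)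

lemma form_span (c : (Fin M → Idx n) → Ω) (S : Set (Idx n → Ω))
    (h : ∀ z : Fin M → Idx n → Ω, (∀ r, z r ∈ S) → form c z = 0)
    (z : Fin M → Idx n → Ω) (hz : ∀ r, z r ∈ Submodule.span Ω S) : form c z = 0 := by
  classical
  have key : ∀ (s : Finset (Fin M)) (z : Fin M → Idx n → Ω), (∀ r ∈ s, z r ∈ Submodule.span Ω S) →
      (∀ r ∉ s, z r ∈ S) → form c z = 0 := by
    intro s
    induction s using Finset.induction_on with
    | empty => exact fun z _ h' => h z fun r => h' r (Finset.notMem_empty r)
    | insert a s ha ih =>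
      intro z hz hz'
      have h1 : ∀ y ∈ Submodule.span Ω S, form c (Function.update z a y) = 0 := by
        have hlin : ∀ (p q : Ω) (y y' : Idx n → Ω),
            form c (Function.update z a (p • y + q • y')) =
            p * form c (Function.update z a y) + q * form c (Function.update z a y') := by
          intro p q y y'
          unfold form
          rw [Finset.mul_sum, Finset.mul_sum, ← Finset.sum_add_distrib]
          refine Finset.sum_congr rfl fun W _ => ?_
          have h2 : ∀ y : Idx n → Ω, ∏ r, Function.update z a y r (W r) =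
              y (W a) * ∏ r ∈ Finset.univ.erase a, z r (W r) := by
            intro y
            rw [← Finset.mul_prod_erase Finset.univ _ (Finset.mem_univ a), Function.update_self]
            congr 1
            refine Finset.prod_congr rfl fun r hr => ?_
            rw [Function.update_of_ne (Finset.ne_of_mem_erase hr)]
          rw [h2, h2, h2, Pi.add_apply, Pi.smul_apply, Pi.smul_apply, smul_eq_mul, smul_eq_mul]
          ring
        intro y hy
        induction hy using Submodule.span_induction with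
        | mem y hy =>
          refine ih _ (fun r hr => ?_) (fun r hr => ?_)
          · have hne : r ≠ a := fun h => ha (h ▸ hr)
            rw [Function.update_of_ne hne]
            exact hz r (Finset.mem_insert_of_mem hr)
          · by_cases hra : r = a
            · rw [hra, Function.update_self]; exact hy
            · rw [Function.update_of_ne hra]
              exact hz' r fun h => (Finset.mem_insert.mp h).elim hra hr
        | zero =>
          have h3 := hlin 0 0 0 0
          simpa using h3
        | add y y' _ _ hy hy' =>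
          have h3 := hlin 1 1 y y'
          simpa [hy, hy'] using h3
        | smul c y _ hy =>
          have h3 := hlin c 0 y 0
          simpa [hy] using h3
      have h2 := h1 (z a) (hz a (Finset.mem_insert_self a s))
      rwa [Function.update_eq_self] at h2
  exact key Finset.univ z (fun r _ => hz r) (fun r hr => absurd (Finset.mem_univ r) hr)

end form

section sign

variable {m : ℕ} {n s : Fin m → ℕ} {N : ℕ} {e : Fin m → ℕ}

/-- all the labellings -/
def lab (σ : ∀ t, Fin (e t) × Fin (s t) ≃ Fin N) :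
    (Fin N → Idx n) ≃ (∀ t, Fin (e t) → Fin (s t) → Fin (n t)) where
  toFun W t k i := W (σ t (k, i)) t
  invFun w j t := w t ((σ t).symm j).1 ((σ t).symm j).2
  left_inv W := by
    funext j t
    simp
  right_inv w := by
    funext t k i
    simp

variable {Ω : Type*} [Field Ω] {A : Type*} [Ring A] [Algebra Ω A]

/-- the sum of ordered products with product coefficients is, up to a sign, a product of sums -/
lemma exists_sign (σ : ∀ t, Fin (e t) × Fin (s t) ≃ Fin N)
    (β : ∀ t, (Fin (s t) → Fin (n t)) → Ω)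
    (sg : Fin m → Fin m → ℤ) (hs : ∀ t t', sg t t' = 1 ∨ sg t t' = -1)
    (L : Fin N → ∀ t, Fin (n t) → A)
    (hL : ∀ j t b j' t' b', L j t b * L j' t' b' = sg t t' • (L j' t' b' * L j t b)) :
    ∃ c : ℤ, (c = 1 ∨ c = -1) ∧
      ∑ W : Fin N → Idx n, (∏ t, ∏ k, β t (fun i => W (σ t (k, i)) t)) •
        (List.ofFn fun j => (List.ofFn fun t => L j t (W j t)).prod).prod =
      c • (List.ofFn fun t => (List.ofFn fun k =>
        ∑ v : Fin (s t) → Fin (n t), β t v •
          (List.ofFn fun i => L (σ t (k, i)) t (v i)).prod).prod).prod := by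
  obtain ⟨c, hc, h⟩ := exists_sign_perm A (fun x y : Fin N × Fin m => sg x.2 y.2)
    (fun x y => hs x.2 y.2) (pos_perm σ)
  refine ⟨c, hc, ?_⟩
  have h1 : ∀ W : Fin N → Idx n,
      (List.ofFn fun j => (List.ofFn fun t => L j t (W j t)).prod).prod =
      c • (List.ofFn fun t => (List.ofFn fun k => (List.ofFn fun i =>
        L (σ t (k, i)) t (W (σ t (k, i)) t)).prod).prod).prod := by
    intro W
    have h2 := h (fun x => L x.1 x.2 (W x.1 x.2)) (fun x y => hL _ _ _ _ _ _)
    unfold pos₁ pos₂ at h2
    simp only [List.map_flatten, List.prod_flatten, List.map_ofFn, Function.comp_def] at h2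
    exact h2
  rw [sum_congr rfl fun W _ => congrArg _ (h1 W)]
  have h2 : ∀ t, (List.ofFn fun k => ∑ v : Fin (s t) → Fin (n t), β t v •
          (List.ofFn fun i => L (σ t (k, i)) t (v i)).prod).prod =
      ∑ w : Fin (e t) → Fin (s t) → Fin (n t), (∏ k, β t (w k)) •
        (List.ofFn fun k => (List.ofFn fun i => L (σ t (k, i)) t (w k i)).prod).prod := by
    intro t
    exact ofFn_prod_sum (α := fun _ : Fin (e t) => (Fin (s t) → Fin (n t)))
      (fun _ w => β t w) (fun k w => (List.ofFn fun i => L (σ t (k, i)) t (w i)).prod)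
  simp only [h2]
  rw [ofFn_prod_sum (α := fun t : Fin m => (Fin (e t) → Fin (s t) → Fin (n t)))
    (fun t w => ∏ k, β t (w k))
    (fun t w => (List.ofFn fun k => (List.ofFn fun i => L (σ t (k, i)) t (w k i)).prod).prod),
    ← Equiv.sum_comp (lab σ), smul_sum]
  refine sum_congr rfl fun W _ => ?_
  rw [smul_comm]
  rfl

end sign

section coh

variable {k : Type u} [Field k] {K : Type t} [Field K] {Ω : Type v} [Field Ω] [Algebra K Ω]
  {P : SPre.{u, v, w, t} k K Ω}

lemma alg_ofFn {Z : SmProjVar k} {m : ℕ} {x : Fin m → P.H Z} (hx : ∀ i, x i ∈ P.alg Z) :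
    (List.ofFn x).prod ∈ P.alg Z := by
  induction m with
  | zero => rw [List.ofFn_zero, List.prod_nil]; exact P.one_mem Z
  | succ m ih =>
    rw [List.ofFn_succ, List.prod_cons]
    exact P.mul_mem _ _ _ (hx 0) (ih fun i => hx i.succ)

/-- the forms whose coefficients are products of the coefficients of algebraic classes vanish -/
lemma form_eq_zero {X Y : SmProjVar k} (hX : P.DP X) {m : ℕ} {n s : Fin m → ℕ}
    (x : ∀ t, Fin (n t) → P.H Y)
    (hpar : ∀ t, (∀ b, x t b ∈ P.ev Y) ∨ ∀ b, x t b ∈ P.od Y) {N : ℕ} {e : Fin m → ℕ}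
    (σ : ∀ t, Fin (e t) × Fin (s t) ≃ Fin (N + 1))
    (β : ∀ t, (Fin (s t) → Fin (n t)) → Ω)
    (halg : ∀ t (Z : SmProjVar k) (p : Fin (s t) → (Z.toOver ⟶ Y.toOver)),
      ∑ v : Fin (s t) → Fin (n t), β t v •
          (List.ofFn fun i => P.pull (p i) (x t (v i))).prod ∈ P.alg Z)
    (z : Fin (N + 1) → Idx n → Ω) (hz : ∀ r, z r ∈ P.wordSet X Y x) :
    form (fun W => ∏ t, ∏ k, β t (fun i => W (σ t (k, i)) t)) z = 0 := by
  classical
  choose r hr c hc using hz
  -- the parities
  have hq : ∀ t, ∃ q : Bool, ∀ b, if q then x t b ∈ P.od Y else x t b ∈ P.ev Y := by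
    intro t
    rcases hpar t with h | h
    · exact ⟨false, fun b => by simpa using h b⟩
    · exact ⟨true, fun b => by simpa using h b⟩
  choose q hq using hq
  let sg : Fin m → Fin m → ℤ := fun t t' => if q t && q t' then -1 else 1
  let L : Fin (N + 1) → ∀ t, Fin (n t) → P.H (Y.selfProd N) := fun j t b =>
    P.pull (Y.projPow N j) (x t b)
  obtain ⟨a, ha, hF⟩ := exists_sign (Ω := Ω) σ β sg (fun t t' => by
      by_cases h : (q t && q t') = true
      · exact .inr (if_pos h)
      · exact .inl (if_neg h)) L (by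
      intro j t b j' t' b'
      have h1 := hq t b
      have h2 := hq t' b'
      change P.pull _ _ * P.pull _ _ = (if q t && q t' then (-1 : ℤ) else 1) •
        (P.pull _ _ * P.pull _ _)
      cases hqt : q t with
      | false =>
        rw [hqt] at h1
        rw [Bool.false_and, if_neg (by simp), one_smul]
        exact P.ev_comm _ _ _ (P.pull_ev _ _ (by simpa using h1))
      | true =>
        rw [hqt] at h1
        have h1' : x t b ∈ P.od Y := by simpa using h1
        cases hqt' : q t' with
        | false =>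
          rw [hqt'] at h2
          rw [Bool.true_and, if_neg (by simp), one_smul]
          exact (P.ev_comm _ _ _ (P.pull_ev _ _ (by simpa using h2))).symm
        | true =>
          rw [hqt'] at h2
          have h2' : x t' b' ∈ P.od Y := by simpa using h2
          rw [Bool.true_and, if_pos rfl, neg_one_zsmul]
          exact P.od_anti _ _ _ (P.pull_od _ _ h1') (P.pull_od _ _ h2'))
  -- the families, indexed by natural numbers
  let J : ℕ → Fin (N + 1) := fun j => Fin.ofNat (N + 1) j
  have hJ : ∀ j : Fin (N + 1), J (j : ℕ) = j := fun j => Fin.ext (Nat.mod_eq_of_lt j.2)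
  have h0 : P.contr (X.selfProd N) (Y.selfProd N) (List.ofFn fun t => (List.ofFn fun k =>
        ∑ v : Fin (s t) → Fin (n t), β t v •
          (List.ofFn fun i => L (σ t (k, i)) t (v i)).prod).prod).prod
      (P.mixPow X Y N fun j => r (J j)) = 0 := by
    refine hX N _ (contr_rad (alg_ofFn fun t => alg_ofFn fun k => ?_)
      (mixPow_rad N _ fun j => hr (J j)))
    exact halg t (Y.selfProd N) fun i => Y.projPow N (σ t (k, i))
  have h1 : ∀ W : Fin (N + 1) → Idx n, ∏ j, z j (W j) =
      P.itr X (fun j => c (J j)) N (P.contr (X.selfProd N) (Y.selfProd N)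
        ((List.ofFn fun j => (List.ofFn fun t => L j t (W j t)).prod).prod)
        (P.mixPow X Y N fun j => r (J j))) := by
    intro W
    have h2 : (List.ofFn fun j => (List.ofFn fun t => L j t (W j t)).prod).prod =
        P.extPow Y N (fun j => word x (W (J j))) := by
      rw [extPow_eq]
      congr 2
      funext j
      rw [hJ, word, map_list_prod, List.map_ofFn]
      rfl
    rw [h2, contr_mixPow N _ _ (fun j => P.alg_le_ev _ (hr (J j)).1), itr_extPow,
      Finset.prod_range]
    refine Finset.prod_congr rfl fun j _ => ?_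
    rw [hJ, hc]
  have h2 : form (fun W => ∏ t, ∏ k, β t (fun i => W (σ t (k, i)) t)) z =
      P.itr X (fun j => c (J j)) N (P.contr (X.selfProd N) (Y.selfProd N)
      (∑ W : Fin (N + 1) → Idx n, (∏ t, ∏ k, β t (fun i => W (σ t (k, i)) t)) •
        (List.ofFn fun j => (List.ofFn fun t => L j t (W j t)).prod).prod)
        (P.mixPow X Y N fun j => r (J j))) := by
    rw [contr_sum, map_sum]
    unfold form
    refine Finset.sum_congr rfl fun W _ => ?_
    rw [map_smul, smul_eq_mul, h1]
  rw [h2, hF, contr_zsmul, h0, smul_zero, map_zero]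

/-- the class given by a tensor of degree two -/
lemma alg_two {Y V : SmProjVar k} {n : ℕ} (e : Fin n → P.H V) (B : Matrix (Fin n) (Fin n) Ω)
    (h : ∑ a, ∑ b, B a b • P.ext V V (e a) (e b) ∈ P.alg (V.prod V))
    (f : Y.toOver ⟶ V.toOver) (Z : SmProjVar k) (p : Fin 2 → (Z.toOver ⟶ Y.toOver)) :
    ∑ v : Fin 2 → Fin n, B (v 0) (v 1) •
      (List.ofFn fun i => P.pull (p i) (P.pull f (e (v i)))).prod ∈ P.alg Z := by
  have h1 := P.pull_mem (SmProjVar.lift (p 0 ≫ f) (p 1 ≫ f)) _ h
  rw [map_sum (P.pull _)] at h1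
  have h2 : ∑ v : Fin 2 → Fin n, B (v 0) (v 1) •
      (List.ofFn fun i => P.pull (p i) (P.pull f (e (v i)))).prod =
      ∑ a, P.pull (SmProjVar.lift (p 0 ≫ f) (p 1 ≫ f)) (∑ b, B a b • P.ext V V (e a) (e b)) := by
    have h3 : ∀ a, P.pull (SmProjVar.lift (p 0 ≫ f) (p 1 ≫ f))
        (∑ b, B a b • P.ext V V (e a) (e b)) =
        ∑ b, B a b • (P.pull (p 0) (P.pull f (e a)) * P.pull (p 1) (P.pull f (e b))) := by
      intro a
      rw [map_sum (P.pull _)]
      refine sum_congr rfl fun b _ => ?_
      rw [map_smul (P.pull _), SPre.ext, map_mul (P.pull _), pull_pull, pull_pull, lift_fst,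
        lift_snd, pull_pull, pull_pull]
    rw [sum_congr rfl fun a _ => h3 a, ← Fintype.sum_prod_type']
    refine Fintype.sum_equiv (finTwoArrowEquiv (Fin n)) _ _ fun v => ?_
    simp [List.ofFn_succ, finTwoArrowEquiv]
  rw [h2]
  exact h1

/-- the pairs -/
def pr {k' : ℕ} (π : Equiv.Perm (Fin k')) : Fin k' × Fin 2 ≃ Fin k' ⊕ Fin k' where
  toFun p := if p.2 = 0 then Sum.inl (π p.1) else Sum.inr p.1
  invFun := Sum.elim (fun r => (π.symm r, 0)) (fun r => (r, 1))
  left_inv := by
    rintro ⟨r, i⟩
    fin_cases i <;> simp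
  right_inv := by
    rintro (r | r) <;> simp

end coh

end TZ

open TZ

variable {k : Type u} [Field k] {K : Type t} [Field K] {Ω : Type v} [Field Ω] [Algebra K Ω]
  {P : SPre.{u, v, w, t} k K Ω}

/-- PIECE ISO-F -/
theorem traceZero_tens {X Y : SmProjVar k} (hX : P.DP X) {m : ℕ} {V : Fin m → SmProjVar k}
    {n : Fin m → ℕ} (e : ∀ t, Fin (n t) → P.H (V t)) (B : Mats n Ω)
    (he : ∀ t, Piece P (V t) (n t) (e t) (B t)) (f : ∀ t, Y.toOver ⟶ (V t).toOver) :
    TraceZero (tens P X Y (fun t b => P.pull (f t) (e t b)) : Set (Idx n → Ω))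
      (act B '' (tens P X Y (fun t b => P.pull (f t) (e t b)) : Set (Idx n → Ω))) := by
  intro k' hk π z y hz hy
  choose z' hz' hy using hy
  let x : ∀ t, Fin (n t) → P.H Y := fun t b => P.pull (f t) (e t b)
  let σ : ∀ t, Fin k' × Fin 2 ≃ Fin (k' + k') := fun t => (pr (π t)).trans finSumFinEquiv
  let β : ∀ t : Fin m, (Fin 2 → Fin (n t)) → Ω := fun t v => B t (v 0) (v 1)
  have hform : ∀ (M : ℕ) (_ : 0 < M) (σ : ∀ _ : Fin m, Fin k' × Fin 2 ≃ Fin M)
      (z : Fin M → Idx n → Ω), (∀ r, z r ∈ P.wordSet X Y x) →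
      form (fun W => ∏ t, ∏ k, β t (fun i => W (σ t (k, i)) t)) z = 0 := by
    intro M hM σ z hz
    obtain ⟨N, rfl⟩ : ∃ N, M = N + 1 := ⟨M - 1, by omega⟩
    refine form_eq_zero (s := fun _ => 2) (e := fun _ => k') hX x (fun t => ?_) σ β
      (fun t Z p => ?_) z hz
    · rcases (he t).parity with h | h
      · exact .inl fun b => P.pull_ev _ _ (h b)
      · exact .inr fun b => P.pull_od _ _ (h b)
    · exact alg_two (e t) (B t) (he t).alg (f t) Z p
  have h0 := form_span _ _ (hform (k' + k') (by omega) σ) (fun j => Sum.elim z z'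
    (finSumFinEquiv.symm j)) (by
      intro j
      rcases h : finSumFinEquiv.symm j with r | r
      · exact hz r
      · exact hz' r)
  rw [← h0]
  have h1 : ∀ W : Fin k' → Idx n, ∏ r, y r (fun t => W (π t r) t) =
      ∑ W' : Fin k' → Idx n, ∏ r, ((∏ t, B t (W (π t r) t) (W' r t)) * z' r (W' r)) := by
    intro W
    have h2 : ∀ r, y r (fun t => W (π t r) t) =
        ∑ w' : Idx n, (∏ t, B t (W (π t r) t) (w' t)) * z' r w' := by
      intro r
      rw [← hy r, act_apply]
    rw [prod_congr rfl fun r _ => h2 r, prod_univ_sum, Fintype.piFinset_univ]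
  rw [sum_congr rfl fun W _ => by rw [h1 W, mul_sum], ← Fintype.sum_prod_type']
  unfold form
  refine Fintype.sum_equiv ((Equiv.sumArrowEquivProdArrow (Fin k') (Fin k') (Idx n)).symm.trans
    (Equiv.arrowCongr finSumFinEquiv (Equiv.refl _))) _ _ fun WW => ?_
  obtain ⟨W, W'⟩ := WW
  have h3 : ∀ j : Fin k' ⊕ Fin k', ((Equiv.sumArrowEquivProdArrow (Fin k') (Fin k')
      (Idx n)).symm.trans (Equiv.arrowCongr finSumFinEquiv (Equiv.refl _))) (W, W')
      (finSumFinEquiv j) = Sum.elim W W' j := by
    intro j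
    simp [Equiv.sumArrowEquivProdArrow]
  set U := ((Equiv.sumArrowEquivProdArrow (Fin k') (Fin k')
      (Idx n)).symm.trans (Equiv.arrowCongr finSumFinEquiv (Equiv.refl _))) (W, W') with hU
  have h4 : ∏ j, Sum.elim z z' (finSumFinEquiv.symm j) (U j) =
      (∏ r, z r (W r)) * ∏ r, z' r (W' r) := by
    rw [← Equiv.prod_comp finSumFinEquiv, Fintype.prod_sum_type]
    simp only [Equiv.symm_apply_apply, h3, Sum.elim_inl, Sum.elim_inr]
  have h5 : ∏ t, ∏ κ, β t (fun i => U (σ t (κ, i)) t) =
      ∏ t, ∏ r, B t (W (π t r) t) (W' r t) := by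
    refine prod_congr rfl fun t _ => prod_congr rfl fun r _ => ?_
    have h6 : U (σ t (r, 0)) = W (π t r) := h3 (Sum.inl (π t r))
    have h7 : U (σ t (r, 1)) = W' r := h3 (Sum.inr r)
    change B t (U (σ t (r, 0)) t) (U (σ t (r, 1)) t) = _
    rw [h6, h7]
  change _ = (∏ t, ∏ κ, β t (fun i => U (σ t (κ, i)) t)) *
    ∏ j, Sum.elim z z' (finSumFinEquiv.symm j) (U j)
  rw [h4, h5, prod_mul_distrib, prod_comm]
  ring

end Pool.Agent.Helper11.Iso
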